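import Pool.Agent.helper78.FS.Spec

set_option autoImplicit false

namespace Pool.Agent.helper78.FS

open Finset Real
open Classical

noncomputable section

instance PF2_fact : Fact (Nat.Prime 7) := ⟨by norm_num⟩

theorem PF2_seven : (7 : ZMod 7) = 0 := by decide

/-- hexagon data at `v` -/
def PF2_Hx {V : Type} (G : V → V → Prop) (v : V) (u : ZMod 6 → V) : Prop :=
  Function.Injective u ∧ (∀ w, G v w ↔ ∃ i, w = u i) ∧ ∀ i j, G (u i) (u j) ↔ (j = i + 1 ∨ i = j + 1)

theorem PF2_shift {V : Type} (G : V → V → Prop) (v : V) (u : ZMod 6 → V) (h : PF2_Hx G v u) (m : ZMod 6) :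
    PF2_Hx G v (fun i => u (i + m)) := by
  obtain ⟨h1, h2, h3⟩ := h
  refine ⟨fun i j hij => add_right_cancel (h1 hij), fun w => ?_, fun i j => ?_⟩
  · rw [h2]
    constructor
    · rintro ⟨i, rfl⟩; exact ⟨i - m, by simp⟩
    · rintro ⟨i, rfl⟩; exact ⟨i + m, rfl⟩
  · rw [h3]
    constructor
    · rintro (h | h)
      · left; linear_combination h
      · right; linear_combination h
    · rintro (h | h)
      · left; linear_combination h
      · right; linear_combination h

theorem PF2_rev {V : Type} (G : V → V → Prop) (v : V) (u : ZMod 6 → V) (h : PF2_Hx G v u) :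
    PF2_Hx G v (fun i => u (-i)) := by
  obtain ⟨h1, h2, h3⟩ := h
  refine ⟨fun i j hij => neg_injective (h1 hij), fun w => ?_, fun i j => ?_⟩
  · rw [h2]
    constructor
    · rintro ⟨i, rfl⟩; exact ⟨-i, by simp⟩
    · rintro ⟨i, rfl⟩; exact ⟨-i, rfl⟩
  · rw [h3]
    constructor
    · rintro (h | h)
      · right; linear_combination h
      · left; linear_combination h
    · rintro (h | h)
      · right; linear_combination h
      · left; linear_combination h

theorem PF2_ring {V : Type} (G : V → V → Prop) (c : V → Fin 7) (v : V) (σ : Fin 7 → ZMod 7) (u : ZMod 6 → V)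
    (hu : PF2_Hx G v u) (hW : W G c v) (hσ : Function.Injective σ) (hP : Perf G c σ v) :
    (∀ n : ℕ, σ (c (u (n : ZMod 6))) - σ (c v) = 3 ^ n * (σ (c (u 0)) - σ (c v))) ∨
    (∀ n : ℕ, σ (c (u (n : ZMod 6))) - σ (c v) = 5 ^ n * (σ (c (u 0)) - σ (c v))) := by
  obtain ⟨h1, h2, h3⟩ := hu
  obtain ⟨_, hc, _⟩ := hW
  have hG : ∀ i, G v (u i) := fun i => (h2 _).2 ⟨i, rfl⟩
  have h7 := PF2_seven
  set d : ZMod 6 → ZMod 7 := fun i => σ (c (u i)) - σ (c v) with hd
  have hstep : ∀ i, d (i + 1) = 3 * d i ∨ d (i + 1) = 5 * d i := by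
    intro i
    rcases hP (u i) (u (i + 1)) (hG i) (hG (i + 1)) ((h3 _ _).2 (Or.inl rfl)) with h | h
    · left; exact h
    · right
      have h' : d i = 3 * d (i + 1) := h
      rw [h']
      linear_combination (-2 * d (i + 1)) * h7
  have hne : ∀ i, d (i + 1 + 1) ≠ d i := by
    intro i h
    have h4 : σ (c (u (i + 1 + 1))) = σ (c (u i)) := by
      have : σ (c (u (i + 1 + 1))) - σ (c v) = σ (c (u i)) - σ (c v) := h
      exact sub_left_injective this
    have h5 := h1 (hc _ _ (hG _) (hG _) (hσ h4))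
    have h6 : (2 : ZMod 6) = 0 := by linear_combination h5
    exact absurd h6 (by decide)
  have hPP : ∀ i, d (i + 1) = 3 * d i → d (i + 1 + 1) = 3 * d (i + 1) := by
    intro i h
    rcases hstep (i + 1) with h4 | h4
    · exact h4
    · exact absurd (by rw [h4, h]; linear_combination (2 * d i) * h7) (hne i)
  have hQQ : ∀ i, d (i + 1) = 5 * d i → d (i + 1 + 1) = 5 * d (i + 1) := by
    intro i h
    rcases hstep (i + 1) with h4 | h4
    · exact absurd (by rw [h4, h]; linear_combination (2 * d i) * h7) (hne i)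
    · exact h4
  rcases hstep 0 with h0 | h0
  · left
    have hall : ∀ n : ℕ, d ((n : ZMod 6) + 1) = 3 * d (n : ZMod 6) := by
      intro n
      induction n with
      | zero => simpa using h0
      | succ n ih => push_cast; exact hPP _ ih
    intro n
    show d (n : ZMod 6) = 3 ^ n * d 0
    induction n with
    | zero => simp
    | succ n ih => push_cast; rw [hall n, ih]; ring
  · right
    have hall : ∀ n : ℕ, d ((n : ZMod 6) + 1) = 5 * d (n : ZMod 6) := by
      intro n
      induction n with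
      | zero => simpa using h0
      | succ n ih => push_cast; exact hQQ _ ih
    intro n
    show d (n : ZMod 6) = 5 ^ n * d 0
    induction n with
    | zero => simp
    | succ n ih => push_cast; rw [hall n, ih]; ring

theorem PF2_two {V : Type} (G : V → V → Prop) (c : V → Fin 7) (v w : V) (σ : Fin 7 → ZMod 7) (u t : ZMod 6 → V)
    (hu : PF2_Hx G v u) (ht : PF2_Hx G w t) (hWv : W G c v) (hWw : W G c w) (hvw : G v w) (hσ : Function.Injective σ)
    (hPv : Perf G c σ v) (hPw : Perf G c σ w) (hu0 : u 0 = w) (ht0 : t 0 = v) (ht1 : t 1 = u 1) :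
    (c (t 2) = c (u 4) ∧ ∀ n : ℕ, σ (c (u (n : ZMod 6))) - σ (c v) = 3 ^ n * (σ (c (u 0)) - σ (c v))) ∨
    (c (t 2) = c (u 3) ∧ ∀ n : ℕ, σ (c (u (n : ZMod 6))) - σ (c v) = 5 ^ n * (σ (c (u 0)) - σ (c v))) := by
  have h7 := PF2_seven
  have hne : σ (c w) - σ (c v) ≠ 0 := by
    intro h
    exact hWv.2.2 w hvw (hσ (sub_eq_zero.1 h))
  have hr := PF2_ring G c v σ u hu hWv hσ hPv
  have hs := PF2_ring G c w σ t ht hWw hσ hPw
  rw [hu0] at hr ⊢
  rw [ht0] at hs
  rcases hr with hr | hr
  · left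
    refine ⟨?_, hr⟩
    have e1 := hr 1
    have e4 := hr 4
    simp only [Nat.cast_one, pow_one] at e1
    have c4 : ((4 : ℕ) : ZMod 6) = 4 := rfl
    rw [c4] at e4
    have c2 : ((2 : ℕ) : ZMod 6) = 2 := rfl
    rcases hs with hs | hs
    · exfalso
      have f1 := hs 1
      simp only [Nat.cast_one, pow_one] at f1
      rw [ht1] at f1
      apply hne
      linear_combination 4 * (e1 - f1) + 3 * (σ (c w) - σ (c v)) * h7
    · have f1 := hs 2
      rw [c2] at f1
      apply hσ
      have e : σ (c (t 2)) - σ (c v) = σ (c (u 4)) - σ (c v) := by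
        rw [e4]
        linear_combination f1 + (-15 * (σ (c w) - σ (c v))) * h7
      exact sub_left_injective e
  · right
    refine ⟨?_, hr⟩
    have e1 := hr 1
    have e3 := hr 3
    simp only [Nat.cast_one, pow_one] at e1
    have c3 : ((3 : ℕ) : ZMod 6) = 3 := rfl
    rw [c3] at e3
    have c2 : ((2 : ℕ) : ZMod 6) = 2 := rfl
    rcases hs with hs | hs
    · have f1 := hs 2
      rw [c2] at f1
      apply hσ
      have e : σ (c (t 2)) - σ (c v) = σ (c (u 3)) - σ (c v) := by
        rw [e3]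
        linear_combination f1 + (-19 * (σ (c w) - σ (c v))) * h7
      exact sub_left_injective e
    · exfalso
      have f1 := hs 1
      simp only [Nat.cast_one, pow_one] at f1
      rw [ht1] at f1
      apply hne
      linear_combination 3 * (e1 - f1) + 4 * (σ (c w) - σ (c v)) * h7

theorem PF2 : PF2_stmt := by
  intro V G c v w σ σ' hsym hirr hWv hWw hvw hσ hσ' hPv hPw hPv' hPw'
  obtain ⟨u0, hu0⟩ := hWv.1
  obtain ⟨i, hi⟩ := (hu0.2.1 w).1 hvw
  set u : ZMod 6 → V := fun j => u0 (j + i) with hu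
  have huH : PF2_Hx G v u := PF2_shift G v u0 hu0 i
  have hu00 : u 0 = w := by simp [hu, hi]
  have hy1 : G v (u 1) := (huH.2.1 _).2 ⟨1, rfl⟩
  have hy2 : G w (u 1) := by
    rw [← hu00]
    exact (huH.2.2 0 1).2 (Or.inl (by ring))
  obtain ⟨t, htH, ht0, ht1⟩ : ∃ t : ZMod 6 → V, PF2_Hx G w t ∧ t 0 = v ∧ t 1 = u 1 := by
    obtain ⟨t0, ht0⟩ := hWw.1
    obtain ⟨j, hj⟩ := (ht0.2.1 v).1 (hsym _ _ hvw)
    have h1 := PF2_shift G w t0 ht0 j
    set t1 : ZMod 6 → V := fun k => t0 (k + j) with ht1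
    have h10 : t1 0 = v := by simp [ht1, hj]
    obtain ⟨k, hk⟩ := (h1.2.1 (u 1)).1 hy2
    have hadj : G (t1 0) (t1 k) := by rw [h10, ← hk]; exact hy1
    rcases (h1.2.2 0 k).1 hadj with h | h
    · refine ⟨t1, h1, h10, ?_⟩
      rw [hk, h]; simp
    · refine ⟨fun k => t1 (-k), PF2_rev G w t1 h1, by simpa using h10, ?_⟩
      have hk' : k = -1 := by linear_combination -h
      show t1 (-1) = u 1
      rw [hk, hk']
  have hinj : ∀ i j, c (u i) = c (u j) → i = j := by
    intro i j h
    exact huH.1 (hWv.2.1 _ _ ((huH.2.1 _).2 ⟨i, rfl⟩) ((huH.2.1 _).2 ⟨j, rfl⟩) h)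
  have hnev : ∀ i, c (u i) ≠ c v := fun i => hWv.2.2 _ ((huH.2.1 _).2 ⟨i, rfl⟩)
  have hA := PF2_two G c v w σ u t huH htH hWv hWw hvw hσ.1 hPv hPw hu00 ht0 ht1
  have hB := PF2_two G c v w σ' u t huH htH hWv hWw hvw hσ'.1 hPv' hPw' hu00 ht0 ht1
  -- the common ratio
  obtain ⟨r, hr, hr'⟩ : ∃ r : ZMod 7, (∀ n : ℕ, σ (c (u (n : ZMod 6))) - σ (c v) = r ^ n * (σ (c (u 0)) - σ (c v))) ∧
      ∀ n : ℕ, σ' (c (u (n : ZMod 6))) - σ' (c v) = r ^ n * (σ' (c (u 0)) - σ' (c v)) := by
    rcases hA with ⟨hA1, hA2⟩ | ⟨hA1, hA2⟩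
    · rcases hB with ⟨hB1, hB2⟩ | ⟨hB1, hB2⟩
      · exact ⟨3, hA2, hB2⟩
      · have := hinj 4 3 (hA1.symm.trans hB1)
        exact absurd this (by decide)
    · rcases hB with ⟨hB1, hB2⟩ | ⟨hB1, hB2⟩
      · have := hinj 3 4 (hA1.symm.trans hB1)
        exact absurd this (by decide)
      · exact ⟨5, hA2, hB2⟩
  set D := σ (c (u 0)) - σ (c v) with hD
  set D' := σ' (c (u 0)) - σ' (c v) with hD'
  have hDne : D ≠ 0 := fun h => hnev 0 (hσ.1 (sub_eq_zero.1 h))
  have hDne' : D' ≠ 0 := fun h => hnev 0 (hσ'.1 (sub_eq_zero.1 h))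
  refine ⟨D' * D⁻¹, σ' (c v) - D' * D⁻¹ * σ (c v), mul_ne_zero hDne' (inv_ne_zero hDne), ?_⟩
  have hsurj : Function.Surjective (fun o : Option (ZMod 6) => match o with | none => c v | some i => c (u i)) := by
    have hinj2 : Function.Injective (fun o : Option (ZMod 6) => match o with | none => c v | some i => c (u i)) := by
      intro a b hab
      cases a with
      | none =>
          cases b with
          | none => rfl
          | some j => exact absurd hab.symm (hnev j)
      | some i =>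
          cases b with
          | none => exact absurd hab (hnev i)
          | some j => rw [hinj i j hab]
    have hcard : Fintype.card (Option (ZMod 6)) = Fintype.card (Fin 7) := by
      rw [Fintype.card_option, ZMod.card, Fintype.card_fin]
    exact ((Fintype.bijective_iff_injective_and_card _).2 ⟨hinj2, hcard⟩).2
  intro k
  obtain ⟨o, ho⟩ := hsurj k
  cases o with
  | none =>
      simp only at ho
      rw [← ho]; ring
  | some i =>
      simp only at ho
      rw [← ho]
      have e : ((i.val : ℕ) : ZMod 6) = i := ZMod.natCast_zmod_val i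
      have h1 := hr i.val
      have h2 := hr' i.val
      rw [e] at h1 h2
      have h3 : D' * D⁻¹ * (σ (c (u i)) - σ (c v)) = σ' (c (u i)) - σ' (c v) := by
        rw [h1, h2]
        field_simp
      linear_combination -h3

end

end Pool.Agent.helper78.FS
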